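import Pool.Agent.TH787.Sil.Defs
import Pool.Agent.TH262.J1190

set_option autoImplicit false

/-! The consequence of the freezing principle in ZFC. -/

namespace Pool.Agent.TH787.Sil

open Pool.Agent.Results.MP_4c1ea5_lc.ZFCClosed Pool.Agent.Helper743

/-- the conclusion of the matrix lemma -/
def MatrixProp (U : Set (Set ℕ)) : Prop :=
  ∀ D : ℕ → Set ℕ, (∀ n, D n ∈ U) →
    ∃ M ∈ U, ∀ n, ∃ v, ∀ s, v ≤ s → (Nat.pair n s ∈ M ↔ s ∈ D n)

theorem computable_mem {U : Set (Set ℕ)} (hU : TuringIdeal U) {B : Set ℕ}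
    (hB : Computable (ind B)) : B ∈ U := by
  obtain ⟨A, hA⟩ := hU.nonempty
  exact hU.down A hA B (le_iff.2 (TR_of_computable hB))

theorem empty_mem {U : Set (Set ℕ)} (hU : TuringIdeal U) : (∅ : Set ℕ) ∈ U := by
  refine computable_mem hU ?_
  have : ind ∅ = fun _ => 0 := by
    funext n
    unfold ind
    rw [if_neg (by simp)]
  rw [this]
  exact Computable.const 0

theorem univ_mem {U : Set (Set ℕ)} (hU : TuringIdeal U) : (Set.univ : Set ℕ) ∈ U := by
  refine computable_mem hU ?_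
  have : ind Set.univ = fun _ => 1 := by
    funext n
    unfold ind
    rw [if_pos (by simp)]
  rw [this]
  exact Computable.const 1

/-- a family in `U` of sets with infinite symmetric differences -/
theorem family {K : Type} (hI : Injects K) {U : Set (Set ℕ)} (hU : TuringIdeal U)
    (hM : MatrixProp U) : ∃ C : K → Set ℕ, (∀ k, C k ∈ U) ∧
      ∀ k l, k ≠ l → ∀ t, ∃ s, t ≤ s ∧ ¬ (s ∈ C k ↔ s ∈ C l) := by
  classical
  obtain ⟨E, hE⟩ := hI
  have h := fun k : K => hM (fun n => if n ∈ E k then Set.univ else ∅) (fun n => by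
    by_cases h : n ∈ E k
    · simp only [h, if_true]; exact univ_mem hU
    · simp only [h, if_false]; exact empty_mem hU)
  choose C hC hC2 using h
  refine ⟨C, hC, fun k l hkl t => ?_⟩
  obtain ⟨n, hn⟩ := hE k l hkl
  obtain ⟨v, hv⟩ := hC2 k n
  obtain ⟨v', hv'⟩ := hC2 l n
  let s := max t (max v v')
  have h1 := hv s ((le_max_left _ _).trans (le_max_right _ _))
  have h2 := hv' s ((le_max_right _ _).trans (le_max_right _ _))
  refine ⟨Nat.pair n s, (le_max_left _ _).trans (Nat.right_le_pair n s), ?_⟩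
  rw [h1, h2]
  by_cases hk : n ∈ E k
  · have hl : n ∉ E l := fun h => hn ⟨fun _ => h, fun _ => hk⟩
    simp [hk, hl]
  · have hl : n ∈ E l := by
      by_contra h
      exact hn ⟨fun h' => absurd h' hk, fun h' => absurd h' h⟩
    simp [hk, hl]

/-- **The main argument.** -/
theorem eq_univ {K : Type} (hI : Injects K) (hF : Freeze K) {U : Set (Set ℕ)}
    (hU : TuringIdeal U) (hM : MatrixProp U) : U = Set.univ := by
  classical
  obtain ⟨C, hC, hCd⟩ := family hI hU hM
  obtain ⟨ξ, hξ, hw⟩ := hF C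
  refine Set.eq_univ_of_forall fun X => ?_
  let D : K → ℕ → Set ℕ := fun a n => if n % 2 = ind X (n / 2) then C (ξ a (n / 2)) else ∅
  have hD : ∀ a n, D a n ∈ U := by
    intro a n
    by_cases h : n % 2 = ind X (n / 2)
    · simp only [D, h, if_true]; exact hC _
    · simp only [D, h, if_false]; exact empty_mem hU
  choose M hMU v hv using fun a : K => hM (D a) (hD a)
  have hi01 : ∀ i, ind X i = 0 ∨ ind X i = 1 := fun i => by
    unfold ind
    by_cases h : i ∈ X
    · right; rw [if_pos h]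
    · left; rw [if_neg h]
  have hD1 : ∀ a i, D a (2 * i + ind X i) = C (ξ a i) := by
    intro a i
    have h1 : (2 * i + ind X i) / 2 = i := by rcases hi01 i with h | h <;> omega
    have h2 : (2 * i + ind X i) % 2 = ind X i := by rcases hi01 i with h | h <;> omega
    simp only [D, h1, h2, if_true]
  have hD2 : ∀ a i, D a (2 * i + (1 - ind X i)) = ∅ := by
    intro a i
    have h1 : (2 * i + (1 - ind X i)) / 2 = i := by rcases hi01 i with h | h <;> omega
    have h2 : ¬ (2 * i + (1 - ind X i)) % 2 = ind X i := by rcases hi01 i with h | h <;> omega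
    simp only [D, h1, h2, if_false]
  -- the delays
  let w : K → ℕ → ℕ := fun a i => max (v a (2 * i + 2)) (v a (2 * i + 3))
  obtain ⟨a, b, hab, hw'⟩ := hw w
  have hagree : ∀ m j, (j < w a m ∨ j < w b m) → (j ∈ C (ξ a m) ↔ j ∈ C (ξ b m)) := by
    intro m j hj
    rcases hj with hj | hj
    · exact hw' m _ (Or.inl rfl) _ _ ⟨rfl, rfl⟩ j hj
    · exact hw' m _ (Or.inr rfl) _ _ ⟨rfl, rfl⟩ j hj
  have hne : ∀ m, ξ a m ≠ ξ b m := fun m h => hab (hξ a b m _ ⟨rfl, h.symm⟩)
  let u : ℕ → ℕ := fun i => max (max (v a (2 * i)) (v a (2 * i + 1)))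
    (max (v b (2 * i)) (v b (2 * i + 1)))
  have hcol : ∀ i c t, (c = 0 ∨ c = 1) → u i ≤ t →
      (Nat.pair (2 * i + c) t ∈ M a ↔ t ∈ D a (2 * i + c)) ∧
      (Nat.pair (2 * i + c) t ∈ M b ↔ t ∈ D b (2 * i + c)) := by
    intro i c t hc ht
    have h1 : v a (2 * i) ≤ u i := (le_max_left _ _).trans (le_max_left _ _)
    have h2 : v a (2 * i + 1) ≤ u i := (le_max_right _ _).trans (le_max_left _ _)
    have h3 : v b (2 * i) ≤ u i := (le_max_left _ _).trans (le_max_right _ _)
    have h4 : v b (2 * i + 1) ≤ u i := (le_max_right _ _).trans (le_max_right _ _)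
    rcases hc with rfl | rfl
    · exact ⟨hv a _ t (h1.trans ht), hv b _ t (h3.trans ht)⟩
    · exact ⟨hv a _ t (h2.trans ht), hv b _ t (h4.trans ht)⟩
  have hdiff : ∀ i t, u i ≤ t →
      ((Nat.pair (2 * i + ind X i) t ∈ M a ↔ Nat.pair (2 * i + ind X i) t ∈ M b) ↔
        (t ∈ C (ξ a i) ↔ t ∈ C (ξ b i))) := by
    intro i t ht
    obtain ⟨h1, h2⟩ := hcol i (ind X i) t (hi01 i) ht
    rw [h1, h2, hD1, hD1]
  have hdec := decode (M a) (M b) X u ?_ ?_ ?_
  · exact hU.down _ (hU.join _ (hMU a) _ (hMU b)) X hdec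
  · intro i t ht
    obtain ⟨s, hs, hs2⟩ := hCd _ _ (hne i) t
    exact ⟨s, hs, fun h => hs2 ((hdiff i s (ht.trans hs)).1 h)⟩
  · intro i s hs
    obtain ⟨h1, h2⟩ := hcol i (1 - ind X i) s (by rcases hi01 i with h | h <;> omega) hs
    rw [h1, h2, hD2, hD2]
  · intro i s hs hd
    have h1 : ¬ (s ∈ C (ξ a i) ↔ s ∈ C (ξ b i)) := fun h => hd ((hdiff i s hs).2 h)
    have h2 : w a i ≤ s := not_lt.1 fun h => h1 (hagree i s (Or.inl h))
    have h3 : w b i ≤ s := not_lt.1 fun h => h1 (hagree i s (Or.inr h))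
    exact max_le h2 h3

end Pool.Agent.TH787.Sil
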