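import Pool.Agent.TH787.Sil.Defs

set_option autoImplicit false

/-! Countable support products of Silver forcing: conditions, filling in finitely many values,
and fusion. -/

namespace Pool.Agent.TH787.Sil

open Pool.Agent.Helper669.Forcing

/-- A condition: a partial function from `K × ℕ` to `Bool`, such that only countably many columns
are nonempty, and in each column infinitely many values are undefined. -/
structure Cnd (K : Type) where
  f : K → ℕ → Option Bool
  cs : {k | ∃ n, f k n ≠ none}.Countable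
  fr : ∀ k N, ∃ n, N ≤ n ∧ f k n = none

variable {K : Type}

instance : Preorder (Cnd K) where
  le q p := ∀ k n b, p.f k n = some b → q.f k n = some b
  le_refl _ _ _ _ h := h
  le_trans _ _ _ h1 h2 k n b h := h1 k n b (h2 k n b h)

theorem le_def {q p : Cnd K} : q ≤ p ↔ ∀ k n b, p.f k n = some b → q.f k n = some b := Iff.rfl

/-- the empty condition -/
def one (K : Type) : Cnd K where
  f _ _ := none
  cs := by simp
  fr _ N := ⟨N, le_rfl, rfl⟩

theorem ne_none_of_le {q p : Cnd K} (h : q ≤ p) {k : K} {n : ℕ} (hp : p.f k n ≠ none) :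
    q.f k n = p.f k n := by
  obtain ⟨b, hb⟩ := Option.ne_none_iff_exists'.1 hp
  rw [hb, h k n b hb]

theorem none_of_le {q p : Cnd K} (h : q ≤ p) {k : K} {n : ℕ} (hq : q.f k n = none) :
    p.f k n = none := by
  by_contra hp
  rw [← ne_none_of_le h hp] at hp
  exact hp hq

/-- the condition with finitely many changes: in the places of `F` use `g` -/
noncomputable def change (p : Cnd K) (F : Finset (K × ℕ)) (g : K → ℕ → Option Bool) : Cnd K where
  f k n := by
    classical
    exact if (k, n) ∈ F then g k n else p.f k n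
  cs := by
    classical
    refine (p.cs.union (F.image Prod.fst).countable_toSet).mono ?_
    rintro k ⟨n, hn⟩
    by_cases h : (k, n) ∈ F
    · exact Or.inr (by simpa using ⟨n, h⟩)
    · rw [if_neg h] at hn
      exact Or.inl ⟨n, hn⟩
  fr k N := by
    classical
    obtain ⟨n, hn, h⟩ := p.fr k (max N (F.sup Prod.snd + 1))
    refine ⟨n, (le_max_left _ _).trans hn, ?_⟩
    rw [if_neg, h]
    intro hF
    have := Finset.le_sup (f := Prod.snd) hF
    have h2 := (le_max_right N (F.sup Prod.snd + 1)).trans hn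
    simp only at this
    omega

open Classical in
theorem change_f (p : Cnd K) (F : Finset (K × ℕ)) (g : K → ℕ → Option Bool) (k : K) (n : ℕ) :
    (change p F g).f k n = if (k, n) ∈ F then g k n else p.f k n := by
  unfold change
  simp only

open Classical in
/-- decide all undecided places of `F`, with value true exactly in the places of `T` -/
noncomputable def fill (p : Cnd K) (F T : Finset (K × ℕ)) : Cnd K :=
  change p F fun k n => if p.f k n = none then some (decide ((k, n) ∈ T)) else p.f k n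

/-- make the places of `F` undecided -/
noncomputable def erase (p : Cnd K) (F : Finset (K × ℕ)) : Cnd K := change p F fun _ _ => none

open Classical in
theorem fill_f (p : Cnd K) (F T : Finset (K × ℕ)) (k : K) (n : ℕ) :
    (fill p F T).f k n =
      if (k, n) ∈ F ∧ p.f k n = none then some (decide ((k, n) ∈ T)) else p.f k n := by
  unfold fill
  rw [change_f]
  by_cases h1 : (k, n) ∈ F <;> by_cases h2 : p.f k n = none <;> simp [h1, h2]

theorem fill_le (p : Cnd K) (F T : Finset (K × ℕ)) : fill p F T ≤ p := by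
  intro k n b h
  rw [fill_f, if_neg, h]
  rintro ⟨_, h2⟩
  rw [h] at h2
  exact absurd h2 (by simp)

theorem fill_ne_none (p : Cnd K) {F : Finset (K × ℕ)} (T : Finset (K × ℕ)) {k : K} {n : ℕ}
    (h : (k, n) ∈ F) : (fill p F T).f k n ≠ none := by
  rw [fill_f]
  by_cases h2 : p.f k n = none
  · rw [if_pos ⟨h, h2⟩]; simp
  · rw [if_neg (fun h3 => h2 h3.2)]; exact h2

/-- the places of `F` are undecided -/
def Free (p : Cnd K) (F : Finset (K × ℕ)) : Prop := ∀ k n, (k, n) ∈ F → p.f k n = none

theorem Free.up {p q : Cnd K} {F : Finset (K × ℕ)} (h : Free q F) (hq : q ≤ p) : Free p F :=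
  fun k n hk => none_of_le hq (h k n hk)

theorem fill_mono {q p : Cnd K} (h : q ≤ p) {F : Finset (K × ℕ)} (T : Finset (K × ℕ))
    (hq : Free q F) : fill q F T ≤ fill p F T := by
  classical
  intro k n b hb
  rw [fill_f] at hb ⊢
  by_cases h1 : (k, n) ∈ F
  · rw [if_pos ⟨h1, hq k n h1⟩]
    rw [if_pos ⟨h1, none_of_le h (hq k n h1)⟩] at hb
    exact hb
  · rw [if_neg (fun h3 => h1 h3.1)] at hb ⊢
    exact h k n b hb

/-- below `fill p F T` there are all `q ≤ p` which decide `F` as given by `T` -/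
theorem le_fill {q p : Cnd K} (h : q ≤ p) {F T : Finset (K × ℕ)}
    (hT : ∀ k n, (k, n) ∈ F → q.f k n ≠ none ∧ ((k, n) ∈ T ↔ q.f k n = some true)) :
    q ≤ fill p F T := by
  classical
  intro k n b hb
  rw [fill_f] at hb
  by_cases h1 : (k, n) ∈ F ∧ p.f k n = none
  · rw [if_pos h1] at hb
    obtain ⟨h2, h3⟩ := hT k n h1.1
    obtain ⟨c, hc⟩ := Option.ne_none_iff_exists'.1 h2
    rw [hc]
    rw [← hb]
    congr 1
    cases c
    · have : (k, n) ∉ T := fun h4 => by
        have := h3.1 h4
        rw [hc] at this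
        exact absurd this (by simp)
      simp [this]
    · have : (k, n) ∈ T := h3.2 hc
      simp [this]
  · rw [if_neg h1] at hb
    exact h k n b hb

theorem erase_free (p : Cnd K) (F : Finset (K × ℕ)) : Free (erase p F) F := by
  classical
  intro k n h
  unfold erase
  rw [change_f, if_pos h]

theorem erase_le {q p : Cnd K} (h : q ≤ p) {F : Finset (K × ℕ)} (hp : Free p F) :
    erase q F ≤ p := by
  classical
  intro k n b hb
  unfold erase
  rw [change_f, if_neg, h k n b hb]
  intro h1
  rw [hp k n h1] at hb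
  exact absurd hb (by simp)

theorem fill_erase_le {q p : Cnd K} {F T : Finset (K × ℕ)} (h : q ≤ fill p F T)
    (hp : Free p F) : fill (erase q F) F T ≤ q := by
  classical
  intro k n b hb
  rw [fill_f]
  by_cases h1 : (k, n) ∈ F
  · rw [if_pos ⟨h1, erase_free q F k n h1⟩]
    have h2 : (fill p F T).f k n = some (decide ((k, n) ∈ T)) := by
      rw [fill_f, if_pos ⟨h1, hp k n h1⟩]
    have h3 := h k n _ h2
    rw [hb] at h3
    exact h3.symm
  · rw [if_neg (fun h3 => h1 h3.1)]
    unfold erase
    rw [change_f, if_neg h1, hb]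

/-- `D` is dense below `p` -/
def DenseBelow (D : Set (Cnd K)) (p : Cnd K) : Prop := ∀ q ≤ p, ∃ r ≤ q, r ∈ D

theorem hit1 {D : Set (Cnd K)} {p0 p : Cnd K} (hD : DenseBelow D p0) (hp : p ≤ p0)
    {F : Finset (K × ℕ)} (hF : Free p F) (T : Finset (K × ℕ)) (hd : Down D) :
    ∃ p' ≤ p, Free p' F ∧ fill p' F T ∈ D := by
  obtain ⟨r, hr, hrD⟩ := hD (fill p F T) ((fill_le p F T).trans hp)
  refine ⟨erase r F, erase_le (hr.trans (fill_le p F T)) hF, erase_free r F, ?_⟩
  exact hd _ hrD _ (fill_erase_le hr hF)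

theorem hitAll {D : Set (Cnd K)} {p0 : Cnd K} (hD : DenseBelow D p0) (hd : Down D)
    (F : Finset (K × ℕ)) (S : Finset (Finset (K × ℕ))) :
    ∀ p ≤ p0, Free p F → ∃ p' ≤ p, Free p' F ∧ ∀ T ∈ S, fill p' F T ∈ D := by
  classical
  induction S using Finset.induction_on with
  | empty => intro p hp hF; exact ⟨p, le_rfl, hF, by simp⟩
  | insert T S hT ih =>
    intro p hp hF
    obtain ⟨p1, h1, h2, h3⟩ := ih p hp hF
    obtain ⟨p2, h4, h5, h6⟩ := hit1 hD (h1.trans hp) h2 T hd
    refine ⟨p2, h4.trans h1, h5, ?_⟩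
    intro T' hT'
    rcases Finset.mem_insert.1 hT' with rfl | h
    · exact h6
    · exact hd _ (h3 T' h) _ (fill_mono h4 T' h5)

theorem enum_countable {S : Set K} (hS : S.Countable) :
    ∃ H : ℕ → Finset K, ∀ k ∈ S, ∃ t, ∀ t', t ≤ t' → k ∈ H t' := by
  classical
  rcases S.eq_empty_or_nonempty with rfl | hne
  · exact ⟨fun _ => ∅, by simp⟩
  · obtain ⟨e, rfl⟩ := hS.exists_eq_range hne
    refine ⟨fun t => (Finset.range (t + 1)).image e, ?_⟩
    rintro _ ⟨n, rfl⟩
    exact ⟨n, fun t' ht => Finset.mem_image.2 ⟨n, Finset.mem_range.2 (by omega), rfl⟩⟩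

/-- states of the fusion -/
structure St (p0 : Cnd K) where
  p : Cnd K
  F : Finset (K × ℕ)
  G : ℕ → Finset K
  le : p ≤ p0
  fr : Free p F
  cov : ∀ k, (∃ n, p.f k n ≠ none) → ∃ t, ∀ t', t ≤ t' → k ∈ G t'

theorem step {p0 : Cnd K} (D : Set (Cnd K)) (hD : DenseBelow D p0) (hd : Down D) (m : ℕ)
    (s : St p0) : ∃ s' : St p0, s'.p ≤ s.p ∧ s.F ⊆ s'.F ∧ (∀ t, s.G t ⊆ s'.G t) ∧
      (∀ k ∈ s.G m, ∃ n, m ≤ n ∧ (k, n) ∈ s'.F) ∧ ∀ T ⊆ s.F, fill s'.p s.F T ∈ D := by
  classical
  obtain ⟨p', h1, h2, h3⟩ := hitAll hD hd s.F s.F.powerset s.p s.le s.fr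
  choose c hc1 hc2 using fun k => p'.fr k m
  obtain ⟨H, hH⟩ := enum_countable p'.cs
  refine ⟨⟨p', s.F ∪ (s.G m).image (fun k => (k, c k)), fun t => s.G t ∪ H t, h1.trans s.le,
    ?_, ?_⟩, h1, Finset.subset_union_left, fun t => Finset.subset_union_left, ?_, ?_⟩
  · intro k n hk
    rcases Finset.mem_union.1 hk with h | h
    · exact h2 k n h
    · obtain ⟨k', _, h4⟩ := Finset.mem_image.1 h
      rw [Prod.mk.injEq] at h4
      obtain ⟨rfl, rfl⟩ := h4
      exact hc2 k'
  · intro k hk
    obtain ⟨t, ht⟩ := hH k hk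
    exact ⟨t, fun t' h => Finset.mem_union_right _ (ht t' h)⟩
  · intro k hk
    exact ⟨c k, hc1 k, Finset.mem_union_right _ (Finset.mem_image.2 ⟨k, hk, rfl⟩)⟩
  · intro T hT
    exact h3 T (Finset.mem_powerset.2 hT)

/-- **Fusion.** -/
theorem fusion {p0 : Cnd K} (D : ℕ → Set (Cnd K)) (hD : ∀ n, DenseBelow (D n) p0)
    (hd : ∀ n, Down (D n)) :
    ∃ q ≤ p0, ∃ F : ℕ → Finset (K × ℕ), (∀ n, Free q (F n)) ∧
      ∀ n, ∀ T ⊆ F n, fill q (F n) T ∈ D n := by
  classical
  choose nx h1 h2 h3 h4 h5 using fun (m : ℕ) (s : St p0) => step (D m) (hD m) (hd m) m s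
  obtain ⟨H0, hH0⟩ := enum_countable p0.cs
  let s0 : St p0 := ⟨p0, ∅, H0, le_rfl, fun k n h => absurd h (by simp), hH0⟩
  let s : ℕ → St p0 := fun m => Nat.rec (motive := fun _ => St p0) s0 (fun m x => nx m x) m
  have hs : ∀ m, s (m + 1) = nx m (s m) := fun m => rfl
  have hple : ∀ i j, i ≤ j → (s j).p ≤ (s i).p := by
    intro i j hij
    induction j with
    | zero => rw [Nat.le_zero.1 hij]
    | succ j ih =>
      rcases Nat.lt_or_eq_of_le hij with h | rfl
      · exact (by rw [hs]; exact h1 j (s j) : (s (j + 1)).p ≤ (s j).p).trans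
          (ih (Nat.lt_succ_iff.1 h))
      · exact le_rfl
  have hF : ∀ i j, i ≤ j → (s i).F ⊆ (s j).F := by
    intro i j hij
    induction j with
    | zero => rw [Nat.le_zero.1 hij]
    | succ j ih =>
      rcases Nat.lt_or_eq_of_le hij with h | rfl
      · exact (ih (Nat.lt_succ_iff.1 h)).trans (by rw [hs]; exact h2 j (s j))
      · exact Finset.Subset.refl _
  have hG : ∀ i j, i ≤ j → ∀ t, (s i).G t ⊆ (s j).G t := by
    intro i j hij t
    induction j with
    | zero => rw [Nat.le_zero.1 hij]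
    | succ j ih =>
      rcases Nat.lt_or_eq_of_le hij with h | rfl
      · exact (ih (Nat.lt_succ_iff.1 h)).trans (by rw [hs]; exact h3 j (s j) t)
      · exact Finset.Subset.refl _
  -- the places of (s i).F stay free
  have hfree : ∀ i j, Free (s j).p (s i).F := by
    intro i j
    rcases le_total i j with h | h
    · exact fun k n hk => (s j).fr k n (hF i j h hk)
    · exact (s i).fr.up (hple j i h)
  -- the limit
  let qf : K → ℕ → Option Bool := fun k n =>
    if h : ∃ m, (s m).p.f k n ≠ none then (s h.choose).p.f k n else none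
  have hq1 : ∀ m k n b, (s m).p.f k n = some b → qf k n = some b := by
    intro m k n b h
    have hex : ∃ m, (s m).p.f k n ≠ none := ⟨m, by rw [h]; simp⟩
    have hsp := hex.choose_spec
    show (if h : ∃ m, (s m).p.f k n ≠ none then (s h.choose).p.f k n else none) = some b
    rw [dif_pos hex]
    rcases le_total m hex.choose with h' | h'
    · exact hple _ _ h' k n b h
    · rw [← h, ne_none_of_le (hple _ _ h') hsp]
  have hq2 : ∀ k n, qf k n ≠ none → ∃ m, (s m).p.f k n ≠ none := by
    intro k n h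
    by_contra hcon
    exact h (by
      show (if h : ∃ m, (s m).p.f k n ≠ none then (s h.choose).p.f k n else none) = none
      rw [dif_neg hcon])
  let q : Cnd K :=
    { f := qf
      cs := by
        refine (Set.countable_iUnion fun m => (s m).p.cs).mono ?_
        rintro k ⟨n, hn⟩
        obtain ⟨m, hm⟩ := hq2 k n hn
        exact Set.mem_iUnion.2 ⟨m, n, hm⟩
      fr := by
        intro k N
        by_cases hk : ∃ n, qf k n ≠ none
        · obtain ⟨n, hn⟩ := hk
          obtain ⟨i, hi⟩ := hq2 k n hn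
          obtain ⟨t, ht⟩ := (s i).cov k ⟨n, hi⟩
          let m := max (max i t) N
          have hm1 : i ≤ m := (le_max_left _ _).trans (le_max_left _ _)
          have hm2 : t ≤ m := (le_max_right _ _).trans (le_max_left _ _)
          have hm3 : N ≤ m := le_max_right _ _
          obtain ⟨n', hn', hmem⟩ := h4 m (s m) k (hG i m hm1 m (ht m hm2))
          refine ⟨n', hm3.trans hn', ?_⟩
          by_contra hne
          obtain ⟨j, hj⟩ := hq2 k n' hne
          exact hj (hfree (m + 1) j k n' (by rw [hs]; exact hmem))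
        · push Not at hk
          exact ⟨N, le_rfl, hk N⟩ }
  have hqle : ∀ m, q ≤ (s m).p := fun m k n b h => hq1 m k n b h
  have hqF : ∀ i, Free q (s i).F := by
    intro i k n hk
    by_contra hne
    obtain ⟨j, hj⟩ := hq2 k n hne
    exact hj (hfree i j k n hk)
  refine ⟨q, (hqle 0).trans (s 0).le, fun n => (s n).F, hqF, ?_⟩
  intro n T hT
  have h6 := h5 n (s n) T hT
  rw [← hs] at h6
  exact hd n _ h6 _ (fill_mono (hqle (n + 1)) T (hqF n))

end Pool.Agent.TH787.Sil
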