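import Pool.Agent.Results.MP_4c1ea5_lc.ZFCClosed
import Pool.Agent.Helper669.Forcing

set_option autoImplicit false

/-! Turing ideals, and the freezing principle in ZFC and in the language of forcing. -/

namespace Pool.Agent.TH787.Sil

open Pool.Agent.Results.MP_4c1ea5_lc.ZFCClosed (TuringLE generated cls CoarseSpace ind)
open Pool.Agent.Helper669.Forcing

/-- The join `A ⊕ B` of two sets of natural numbers. -/
def joinSet (A B : Set ℕ) : Set ℕ := {n | (∃ m ∈ A, n = 2 * m) ∨ ∃ m ∈ B, n = 2 * m + 1}

/-- `U` is a Turing ideal: nonempty, closed downward under Turing reducibility and closed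
under joins. -/
structure TuringIdeal (U : Set (Set ℕ)) : Prop where
  nonempty : U.Nonempty
  down : ∀ A ∈ U, ∀ B, TuringLE B A → B ∈ U
  join : ∀ A ∈ U, ∀ B ∈ U, joinSet A B ∈ U

/-- The freezing principle for `K`: for all families `C k`, `k : K`, of sets of natural numbers
there is `ξ : K × ℕ → K`, injective in the first variable, such that for all `w : K × ℕ → ℕ` there
are `a ≠ b` in `K` such that for all `m` the sets `C (ξ a m)` and `C (ξ b m)` agree below `w a m`
and below `w b m`. -/
def Freeze (K : Type) : Prop :=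
  ∀ C : K → Set ℕ, ∃ ξ : K → ℕ → K, (∀ a a' m k, ξ a m = k ∧ ξ a' m = k → a = a') ∧
    ∀ w : K → ℕ → ℕ, ∃ a b, a ≠ b ∧ ∀ m v, (w a m = v ∨ w b m = v) →
      ∀ k l, (ξ a m = k ∧ ξ b m = l) → ∀ j < v, (j ∈ C k ↔ j ∈ C l)

/-- `K` injects into the power set of `ℕ`. -/
def Injects (K : Type) : Prop :=
  ∃ E : K → Set ℕ, ∀ k l, k ≠ l → ∃ n, ¬ (n ∈ E k ↔ n ∈ E l)

section Forcing

variable (P : Type) [Preorder P]

/-- `φ or ψ` is `not (not φ and not ψ)`. -/
def forr {P : Type} [Preorder P] (φ ψ : Set P) : Set P := fnot (fand (fnot φ) (fnot ψ))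

/-- `φ iff ψ`. -/
def fiff {P : Type} [Preorder P] (φ ψ : Set P) : Set P := fand (fimp φ ψ) (fimp ψ φ)

/-- `Freeze K` in the generic extension by `P`. The families `C`, `ξ`, `w` are named relations. -/
def FreezeN (K : Type) : Set P :=
  fall fun C : K → ℕ → Set P => fex fun ξ : K → ℕ → K → Set P =>
    fand (fall fun a => IsFun (ξ a))
      (fand (fall fun a => fall fun a' => fall fun m => fall fun k =>
          fimp (fand (meets (ξ a m k)) (meets (ξ a' m k))) (fground (a = a')))
        (fall fun w : K → ℕ → ℕ → Set P => fimp (fall fun a => IsFun (w a))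
          (fex fun a => fex fun b => fand (fground (a ≠ b))
            (fall fun m => fall fun v => fimp (forr (meets (w a m v)) (meets (w b m v)))
              (fall fun k => fall fun l => fimp (fand (meets (ξ a m k)) (meets (ξ b m l)))
                (fall fun j => fall fun _ : j < v => fiff (meets (C k j)) (meets (C l j))))))))

/-- `Injects K` in the generic extension by `P`. -/
def InjectsN (K : Type) : Set P :=
  fex fun E : K → ℕ → Set P => fall fun k => fall fun l => fall fun _ : k ≠ l =>
    fex fun n => fnot (fiff (meets (E k n)) (meets (E l n)))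

end Forcing

end Pool.Agent.TH787.Sil
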