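import Pool.Agent.TH787.Sil.Read

set_option autoImplicit false

/-! The freezing principle is forced. -/

namespace Pool.Agent.TH787.Sil

open Pool.Agent.Helper669.Forcing Cardinal

variable {K : Type}

/-- The data after the first thinning: conditions reading the names, in a Delta-system of
isomorphic copies, and an injective map to the index set. -/
structure Setup (K : Type) where
  p : Cnd K
  C : K → ℕ → Set (Cnd K)
  pk : K → Cnd K
  e : K → ℕ → K
  F : ℕ → Finset (ℕ × ℕ)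
  P : ℕ → ℕ → Option Bool
  A : Set ℕ
  g : K → ℕ → K
  le : ∀ a m, pk (g a m) ≤ p
  inj : ∀ a m, Function.Injective (e (g a m))
  sup : ∀ a m x n, (pk (g a m)).f x n ≠ none → ∃ i, e (g a m) i = x
  read : ∀ a m n, ∀ T ⊆ F n,
    fill (pk (g a m)) (im (e (g a m)) (F n)) (im (e (g a m)) T) ∈ meets (C (g a m) n) ∨
    fill (pk (g a m)) (im (e (g a m)) (F n)) (im (e (g a m)) T) ∈ fnot (meets (C (g a m) n))
  iso : ∀ a m a' m' n, ∀ T ⊆ F n,
    fill (pk (g a m)) (im (e (g a m)) (F n)) (im (e (g a m)) T) ∈ meets (C (g a m) n) →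
    fill (pk (g a' m')) (im (e (g a' m')) (F n)) (im (e (g a' m')) T) ∈ meets (C (g a' m') n)
  val : ∀ a m i n, (pk (g a m)).f (e (g a m) i) n = P i n
  root : ∀ a m a' m', ∀ i ∈ A, e (g a m) i = e (g a' m') i
  disj : ∀ a m a' m', g a m ≠ g a' m' → ∀ i j, e (g a m) i = e (g a' m') j → i = j ∧ i ∈ A
  ginj : ∀ a m a' m', g a m = g a' m' → a = a' ∧ m = m'

namespace Setup

variable (S : Setup K)

/-- `x` is the `i`-th point of the `m`-th name of the `a`-th sequence, outside the root -/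
def Pt (a : K) (m i : ℕ) (x : K) : Prop := i ∉ S.A ∧ S.e (S.g a m) i = x

theorem pt_unique {a a' : K} {m m' i i' : ℕ} {x : K} (h : S.Pt a m i x) (h' : S.Pt a' m' i' x) :
    a = a' ∧ m = m' ∧ i = i' := by
  by_cases hg : S.g a m = S.g a' m'
  · obtain ⟨h1, h2⟩ := S.ginj _ _ _ _ hg
    subst h1; subst h2
    exact ⟨rfl, rfl, S.inj _ _ (h.2.trans h'.2.symm)⟩
  · obtain ⟨_, h2⟩ := S.disj _ _ _ _ hg i i' (h.2.trans h'.2.symm)
    exact absurd h2 h.1

theorem fr_P (a : K) (i N : ℕ) : ∃ n, N ≤ n ∧ S.P i n = none := by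
  obtain ⟨n, h1, h2⟩ := (S.pk (S.g a 0)).fr (S.e (S.g a 0) i) N
  exact ⟨n, h1, by rw [← S.val a 0 i n]; exact h2⟩

theorem not_pt_root {a a' : K} {m m' i i' : ℕ} (hi : i ∈ S.A) : ¬ S.Pt a m i' (S.e (S.g a' m') i) := by
  rintro ⟨h1, h2⟩
  rw [S.root a' m' a m i hi] at h2
  exact h1 (S.inj _ _ h2 ▸ hi)

open Classical in
/-- the root condition -/
noncomputable def r (a0 : K) : Cnd K where
  f x n := if ∃ i ∈ S.A, S.e (S.g a0 0) i = x then (S.pk (S.g a0 0)).f x n else none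
  cs := by
    refine (S.pk (S.g a0 0)).cs.mono ?_
    rintro x ⟨n, hn⟩
    by_cases h : ∃ i ∈ S.A, S.e (S.g a0 0) i = x
    · rw [if_pos h] at hn; exact ⟨n, hn⟩
    · rw [if_neg h] at hn; exact absurd rfl hn
  fr x N := by
    obtain ⟨n, h1, h2⟩ := (S.pk (S.g a0 0)).fr x N
    refine ⟨n, h1, ?_⟩
    by_cases h : ∃ i ∈ S.A, S.e (S.g a0 0) i = x
    · rw [if_pos h, h2]
    · rw [if_neg h]

theorem r_val (a0 a : K) (m i n : ℕ) (hi : i ∈ S.A) :
    (S.r a0).f (S.e (S.g a m) i) n = S.P i n := by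
  classical
  have h : S.e (S.g a m) i = S.e (S.g a0 0) i := S.root _ _ _ _ i hi
  show (if ∃ j ∈ S.A, S.e (S.g a0 0) j = S.e (S.g a m) i then
    (S.pk (S.g a0 0)).f (S.e (S.g a m) i) n else none) = _
  rw [if_pos ⟨i, hi, h.symm⟩, h, S.val]

theorem r_le (a0 : K) : S.r a0 ≤ S.p := by
  classical
  intro x n b h
  have h1 := S.le a0 0 x n b h
  have h2 := S.le a0 1 x n b h
  obtain ⟨i, hi⟩ := S.sup a0 0 x n (by rw [h1]; simp)
  obtain ⟨j, hj⟩ := S.sup a0 1 x n (by rw [h2]; simp)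
  have hne : S.g a0 0 ≠ S.g a0 1 := fun h => by
    have := (S.ginj _ _ _ _ h).2
    omega
  obtain ⟨_, h3⟩ := S.disj _ _ _ _ hne i j (hi.trans hj.symm)
  show (if ∃ i ∈ S.A, S.e (S.g a0 0) i = x then (S.pk (S.g a0 0)).f x n else none) = _
  rw [if_pos ⟨i, h3, hi⟩, h1]

/-- `a` is good for `r'`: the points of the `a`-th sequence are not in the support of `r'` -/
def Good (r' : Cnd K) (a : K) : Prop := ∀ m i x n, S.Pt a m i x → r'.f x n = none

theorem bad_countable (r' : Cnd K) : {a | ¬ S.Good r' a}.Countable := by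
  have h : ∀ a : {a | ¬ S.Good r' a}, ∃ x : {k | ∃ n, r'.f k n ≠ none}, ∃ m i,
      S.Pt a.1 m i x.1 := by
    rintro ⟨a, ha⟩
    unfold Good at ha
    simp only [Set.mem_ofPred_eq] at ha
    push Not at ha
    obtain ⟨m, i, x, n, h1, h2⟩ := ha
    exact ⟨⟨x, n, h2⟩, m, i, h1⟩
  choose x hx using h
  have : Countable {k | ∃ n, r'.f k n ≠ none} := r'.cs.to_subtype
  have hinj : Function.Injective x := by
    intro a b hab
    obtain ⟨m, i, h1⟩ := hx a
    obtain ⟨m', i', h2⟩ := hx b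
    rw [hab] at h1
    exact Subtype.ext (S.pt_unique h1 h2).1
  exact Set.countable_coe_iff.1 hinj.countable

open Classical in
/-- the condition below `r'` and all the conditions of the `a`-th sequence -/
noncomputable def qa (r' : Cnd K) (a : K) : Cnd K where
  f x n := if h : ∃ mi : ℕ × ℕ, S.Pt a mi.1 mi.2 x then S.P h.choose.2 n else r'.f x n
  cs := by
    refine (r'.cs.union (Set.countable_range fun mi : ℕ × ℕ => S.e (S.g a mi.1) mi.2)).mono ?_
    rintro x ⟨n, hn⟩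
    by_cases h : ∃ mi : ℕ × ℕ, S.Pt a mi.1 mi.2 x
    · obtain ⟨mi, h1⟩ := h
      exact Or.inr ⟨mi, h1.2⟩
    · rw [dif_neg h] at hn
      exact Or.inl ⟨n, hn⟩
  fr x N := by
    by_cases h : ∃ mi : ℕ × ℕ, S.Pt a mi.1 mi.2 x
    · obtain ⟨n, h1, h2⟩ := S.fr_P a h.choose.2 N
      exact ⟨n, h1, by rw [dif_pos h, h2]⟩
    · obtain ⟨n, h1, h2⟩ := r'.fr x N
      exact ⟨n, h1, by rw [dif_neg h, h2]⟩

theorem qa_pt {r' : Cnd K} {a : K} {m i : ℕ} {x : K} (h : S.Pt a m i x) (n : ℕ) :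
    (S.qa r' a).f x n = S.P i n := by
  classical
  have hex : ∃ mi : ℕ × ℕ, S.Pt a mi.1 mi.2 x := ⟨(m, i), h⟩
  show (if h : ∃ mi : ℕ × ℕ, S.Pt a mi.1 mi.2 x then S.P h.choose.2 n else r'.f x n) = _
  rw [dif_pos hex, (S.pt_unique hex.choose_spec h).2.2]

theorem qa_npt {r' : Cnd K} {a : K} {x : K} (h : ∀ m i, ¬ S.Pt a m i x) (n : ℕ) :
    (S.qa r' a).f x n = r'.f x n := by
  classical
  show (if h : ∃ mi : ℕ × ℕ, S.Pt a mi.1 mi.2 x then S.P h.choose.2 n else r'.f x n) = _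
  rw [dif_neg]
  rintro ⟨mi, h1⟩
  exact h _ _ h1

theorem qa_le {r' : Cnd K} {a : K} (ha : S.Good r' a) : S.qa r' a ≤ r' := by
  intro x n b h
  rw [S.qa_npt, h]
  intro m i h1
  rw [ha m i x n h1] at h
  exact absurd h (by simp)

theorem qa_le_pk {r' : Cnd K} {a0 a : K} (hr : r' ≤ S.r a0) (m : ℕ) :
    S.qa r' a ≤ S.pk (S.g a m) := by
  intro x n b h
  obtain ⟨i, rfl⟩ := S.sup a m x n (by rw [h]; simp)
  by_cases hi : i ∈ S.A
  · rw [S.qa_npt (fun m' i' => S.not_pt_root hi)]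
    refine hr _ _ _ ?_
    rw [S.r_val a0 a m i n hi, ← S.val a m i n, h]
  · rw [S.qa_pt (m := m) (i := i) ⟨hi, rfl⟩, ← S.val a m i n, h]

open Classical in
/-- decide all relevant places outside the root -/
noncomputable def qc (qb : Cnd K) (h : ℕ → ℕ) (a : K) : Cnd K where
  f x n := if qb.f x n = none ∧ ∃ m i, S.Pt a m i x ∧ ∃ j < h m, (i, n) ∈ S.F j then
    some false else qb.f x n
  cs := by
    refine (qb.cs.union (Set.countable_range fun mi : ℕ × ℕ => S.e (S.g a mi.1) mi.2)).mono ?_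
    rintro x ⟨n, hn⟩
    by_cases h : qb.f x n = none ∧ ∃ m i, S.Pt a m i x ∧ ∃ j < h m, (i, n) ∈ S.F j
    · obtain ⟨_, m, i, h1, _⟩ := h
      exact Or.inr ⟨(m, i), h1.2⟩
    · rw [if_neg h] at hn
      exact Or.inl ⟨n, hn⟩
  fr x N := by
    by_cases hx : ∃ m i, S.Pt a m i x
    · obtain ⟨m, i, hmi⟩ := hx
      let B := (Finset.range (h m)).sup fun j => (S.F j).sup Prod.snd
      obtain ⟨n, h1, h2⟩ := qb.fr x (max N (B + 1))
      refine ⟨n, (le_max_left _ _).trans h1, ?_⟩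
      rw [if_neg, h2]
      rintro ⟨_, m', i', h3, j, hj, h4⟩
      obtain ⟨_, rfl, rfl⟩ := S.pt_unique hmi h3
      have h5 : n ≤ (S.F j).sup Prod.snd := Finset.le_sup (f := Prod.snd) h4
      have h6 : (S.F j).sup Prod.snd ≤ B :=
        Finset.le_sup (f := fun j => (S.F j).sup Prod.snd) (Finset.mem_range.2 hj)
      have h7 := (le_max_right N (B + 1)).trans h1
      omega
    · obtain ⟨n, h1, h2⟩ := qb.fr x N
      refine ⟨n, h1, ?_⟩
      rw [if_neg, h2]
      rintro ⟨_, m', i', h3, _⟩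
      exact hx ⟨m', i', h3⟩

theorem qc_le (qb : Cnd K) (h : ℕ → ℕ) (a : K) : S.qc qb h a ≤ qb := by
  classical
  intro x n b hb
  show (if qb.f x n = none ∧ ∃ m i, S.Pt a m i x ∧ ∃ j < h m, (i, n) ∈ S.F j then
    some false else qb.f x n) = _
  rw [if_neg, hb]
  rintro ⟨h1, _⟩
  rw [hb] at h1
  exact absurd h1 (by simp)

theorem qc_dec (qb : Cnd K) (h : ℕ → ℕ) (a : K) {m i j n : ℕ} {x : K} (hx : S.Pt a m i x)
    (hj : j < h m) (hn : (i, n) ∈ S.F j) : (S.qc qb h a).f x n ≠ none := by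
  classical
  show (if qb.f x n = none ∧ ∃ m i, S.Pt a m i x ∧ ∃ j < h m, (i, n) ∈ S.F j then
    some false else qb.f x n) ≠ none
  by_cases h1 : qb.f x n = none
  · rw [if_pos ⟨h1, m, i, hx, j, hj, hn⟩]; simp
  · rw [if_neg (fun h2 => h1 h2.1)]; exact h1

end Setup

/-- the union of two conditions with isomorphic enumerations -/
theorem join_exists {p q : Cnd K} {e e' : ℕ → K}
    (hp : ∀ x n, p.f x n ≠ none → ∃ i, e i = x) (hq : ∀ x n, q.f x n ≠ none → ∃ i, e' i = x)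
    (hd : ∀ i j, e i = e' j → i = j) (hv : ∀ i n, p.f (e i) n = q.f (e' i) n) :
    ∃ r : Cnd K, r ≤ p ∧ r ≤ q := by
  classical
  have key : ∀ x n, p.f x n ≠ none → q.f x n ≠ none → p.f x n = q.f x n := by
    intro x n h1 h2
    obtain ⟨i, rfl⟩ := hp x n h1
    obtain ⟨j, hj⟩ := hq _ n h2
    have hij := hd i j hj.symm
    subst hij
    rw [hv i n, hj]
  let rf : K → ℕ → Option Bool := fun x n => if p.f x n = none then q.f x n else p.f x n
  refine ⟨⟨rf, ?_, ?_⟩, ?_, ?_⟩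
  · refine (p.cs.union q.cs).mono ?_
    rintro x ⟨n, hn⟩
    by_cases h : p.f x n = none
    · refine Or.inr ⟨n, ?_⟩
      simp only [rf, if_pos h] at hn
      exact hn
    · exact Or.inl ⟨n, h⟩
  · intro x N
    by_cases h1 : ∃ i, e i = x
    · obtain ⟨i, rfl⟩ := h1
      by_cases h2 : ∃ j, e' j = e i
      · obtain ⟨j, hj⟩ := h2
        have hij := hd i j hj.symm
        subst hij
        obtain ⟨n, h3, h4⟩ := p.fr (e i) N
        refine ⟨n, h3, ?_⟩
        simp only [rf, if_pos h4]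
        rw [← hj, ← hv i n, h4]
      · obtain ⟨n, h3, h4⟩ := p.fr (e i) N
        refine ⟨n, h3, ?_⟩
        simp only [rf, if_pos h4]
        by_contra h5
        exact h2 (hq _ n h5)
    · obtain ⟨n, h3, h4⟩ := q.fr x N
      refine ⟨n, h3, ?_⟩
      have h5 : p.f x n = none := by
        by_contra h5
        exact h1 (hp _ n h5)
      simp only [rf, if_pos h5, h4]
  · intro x n b hb
    show (if p.f x n = none then q.f x n else p.f x n) = some b
    rw [if_neg (by rw [hb]; simp), hb]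
  · intro x n b hb
    show (if p.f x n = none then q.f x n else p.f x n) = some b
    by_cases h : p.f x n = none
    · rw [if_pos h, hb]
    · rw [if_neg h, key x n h (by rw [hb]; simp), hb]

end Pool.Agent.TH787.Sil
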