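import Pool.Agent.TH787.Sil.Force
import Pool.Agent.TH262.J1191

set_option autoImplicit false

/-! The freezing principle is forced: main argument. -/

namespace Pool.Agent.TH787.Sil

open Pool.Agent.Helper669.Forcing Cardinal

variable {K : Type}

theorem mem_meets_ground {h : Prop} {p : Cnd K} : p ∈ meets (fground h) ↔ h := by
  constructor
  · intro h1
    obtain ⟨_, _, _, h2, _⟩ := h1 p le_rfl
    exact h2
  · intro h1 q _
    exact ⟨q, le_rfl, q, h1, le_rfl⟩

/-- the name of a ground model function -/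
def chk (g : K → ℕ → K) : K → ℕ → K → Set (Cnd K) := fun a m k => fground (g a m = k)

theorem isFun_chk (g : K → ℕ → K) (p : Cnd K) (a : K) : p ∈ IsFun (chk g a) := by
  refine ⟨fun m => ?_, fun m k k' => ?_⟩
  · exact mem_fex_of_mem (g a m) (down_meets _) (mem_meets_ground.2 rfl)
  · refine mem_fimp.2 fun q _ hq => ⟨q, le_rfl, ?_⟩
    exact (mem_meets_ground.1 hq.1).symm.trans (mem_meets_ground.1 hq.2)

theorem fun_card {α β : Type} [Countable α] (hβ : #β ≤ 𝔠) : #(α → β) ≤ 𝔠 := by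
  have h : #(α → β) = #β ^ #α := (Cardinal.power_def β α).symm
  rw [h]
  have h1 : #α ≤ ℵ₀ := Cardinal.mk_le_aleph0
  calc #β ^ #α ≤ 𝔠 ^ #α := Cardinal.power_le_power_right hβ
    _ ≤ 𝔠 ^ ℵ₀ := Cardinal.power_le_power_left continuum_ne_zero h1
    _ = 𝔠 := continuum_power_aleph0

theorem prod_card {α β : Type} (hα : #α ≤ 𝔠) (hβ : #β ≤ 𝔠) : #(α × β) ≤ 𝔠 := by
  rw [Cardinal.mk_prod, Cardinal.lift_id, Cardinal.lift_id]
  exact (mul_le_mul' hα hβ).trans (continuum_mul_self).le

theorem cnt_card {α : Type} [Countable α] : #α ≤ 𝔠 :=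
  Cardinal.mk_le_aleph0.trans aleph0_le_continuum

theorem exists_two {E : Type} {T : Set E} (hT : ¬ #T ≤ 𝔠) : ∃ a ∈ T, ∃ b ∈ T, a ≠ b := by
  by_contra hcon
  push Not at hcon
  apply hT
  have : Subsingleton T := ⟨fun x y => Subtype.ext (hcon x.1 x.2 y.1 y.2)⟩
  exact cnt_card

theorem Setup.forced (S : Setup K) (hK : ¬ #K ≤ 𝔠) (a0 : K) : S.r a0 ∈
    fand (fall fun a => IsFun (chk S.g a))
      (fand (fall fun a => fall fun a' => fall fun m => fall fun k =>
          fimp (fand (meets (chk S.g a m k)) (meets (chk S.g a' m k))) (fground (a = a')))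
        (fall fun w : K → ℕ → ℕ → Set (Cnd K) => fimp (fall fun a => IsFun (w a))
          (fex fun a => fex fun b => fand (fground (a ≠ b))
            (fall fun m => fall fun v => fimp (forr (meets (w a m v)) (meets (w b m v)))
              (fall fun k => fall fun l =>
                fimp (fand (meets (chk S.g a m k)) (meets (chk S.g b m l)))
                (fall fun j => fall fun _ : j < v =>
                  fiff (meets (S.C k j)) (meets (S.C l j)))))))) := by
  classical
  refine ⟨fun a => isFun_chk _ _ a, fun a a' m k => ?_, fun w => ?_⟩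
  · refine mem_fimp.2 fun q _ hq => ⟨q, le_rfl, ?_⟩
    have h1 : S.g a m = k := mem_meets_ground.1 hq.1
    have h2 : S.g a' m = k := mem_meets_ground.1 hq.2
    exact (S.ginj _ _ _ _ (h1.trans h2.symm)).1
  refine mem_fimp.2 fun r' hr' hw => ?_
  have : Infinite K := by
    rw [← not_finite_iff_infinite]
    intro h
    exact hK (cnt_card)
  -- the good indices
  let G := {a : K // S.Good r' a}
  have hG : ¬ #G ≤ 𝔠 := by
    intro hG
    apply hK
    have h1 : #K = #G + #{a : K // ¬ S.Good r' a} := (Cardinal.mk_sum_compl {a | S.Good r' a}).symm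
    rw [h1]
    have h2 : #{a : K // ¬ S.Good r' a} ≤ 𝔠 := by
      have h3 := S.bad_countable r'
      have : Countable {a : K // ¬ S.Good r' a} := h3.to_subtype
      exact cnt_card
    exact (add_le_add hG h2).trans continuum_add_self.le
  choose qb hqb h hh using fun a : G => bounding (S.qa_le a.2) (w a.1) (hw a.1)
  let qc : G → Cnd K := fun a => S.qc (qb a) (h a) a.1
  have hqc : ∀ a, qc a ≤ qb a := fun a => S.qc_le _ _ _
  have hen := fun a : G => exists_enum (K := K) (S := {x | ∃ n, (qc a).f x n ≠ none} ∪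
    Set.range fun mi : ℕ × ℕ => S.e (S.g a.1 mi.1) mi.2) ((qc a).cs.union (Set.countable_range _))
  choose en hen1 hen2 using hen
  have hidx : ∀ (a : G) (m i : ℕ), ∃ t, en a t = S.e (S.g a.1 m) i := fun a m i =>
    hen2 a _ (Or.inr ⟨(m, i), rfl⟩)
  choose ix hix using hidx
  let d : G → (ℕ → ℕ) × (ℕ → ℕ → Option Bool) × (ℕ → ℕ → ℕ) := fun a =>
    (h a, (fun i n => (qc a).f (en a i) n), ix a)
  have hd : #((ℕ → ℕ) × (ℕ → ℕ → Option Bool) × (ℕ → ℕ → ℕ)) ≤ 𝔠 :=
    prod_card (fun_card cnt_card) (prod_card (fun_card (fun_card cnt_card))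
      (fun_card (fun_card cnt_card)))
  obtain ⟨T, A, hT1, hT2, hT3, hT4⟩ := thin hG hd en hen1 d
  obtain ⟨a, haT, b, hbT, hab⟩ := exists_two hT1
  have hdab := hT2 a haT b hbT
  have e1 : h a = h b := congrArg Prod.fst hdab
  have e2 : ∀ i n, (qc a).f (en a i) n = (qc b).f (en b i) n := fun i n =>
    congrFun (congrFun (congrArg (fun z => z.2.1) hdab) i) n
  have e3 : ix a = ix b := congrArg (fun z => z.2.2) hdab
  obtain ⟨q, hqa, hqb'⟩ := join_exists (p := qc a) (q := qc b) (e := en a) (e' := en b)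
    (fun x n hx => hen2 a x (Or.inl ⟨n, hx⟩)) (fun x n hx => hen2 b x (Or.inl ⟨n, hx⟩))
    (fun i j hij => (hT4 a haT b hbT hab i j hij).1) e2
  have hqr : q ≤ r' := ((hqa.trans (hqc a)).trans (hqb a)).trans (S.qa_le a.2)
  refine ⟨q, hqr, ?_⟩
  refine mem_fex_of_mem a.1 (down_fex _) (mem_fex_of_mem b.1 ?_ ?_)
  · exact down_fand (down_fground _) (down_fall fun _ => down_fall fun _ => down_fimp _ _)
  refine ⟨fun hh => hab (Subtype.ext hh), fun m v => mem_fimp.2 fun q1 hq1 hv => ⟨q1, le_rfl, ?_⟩⟩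
  -- the bound
  have hvm : v ≤ h a m := by
    by_contra hcon
    apply hv q1 le_rfl
    refine ⟨fun q2 hq2 h2 => hcon ?_, fun q2 hq2 h2 => hcon ?_⟩
    · exact hh a m v q2 ((hq2.trans hq1).trans (hqa.trans (hqc a))) h2
    · rw [e1]
      exact hh b m v q2 ((hq2.trans hq1).trans (hqb'.trans (hqc b))) h2
  intro k l
  refine mem_fimp.2 fun q3 hq3 hkl => ⟨q3, le_rfl, ?_⟩
  have hk : S.g a.1 m = k := mem_meets_ground.1 hkl.1
  have hl : S.g b.1 m = l := mem_meets_ground.1 hkl.2
  subst hk; subst hl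
  intro j hj
  have hjm : j < h a m := lt_of_lt_of_le hj hvm
  have hjm' : j < h b m := by rw [← e1]; exact hjm
  have hsame : ∀ i n, (qc a).f (S.e (S.g a.1 m) i) n = (qc b).f (S.e (S.g b.1 m) i) n := by
    intro i n
    rw [← hix a m i, ← hix b m i, e2, e3]
  have hka : qc a ≤ S.pk (S.g a.1 m) := ((hqc a).trans (hqb a)).trans (S.qa_le_pk hr' m)
  have hkb : qc b ≤ S.pk (S.g b.1 m) := ((hqc b).trans (hqb b)).trans (S.qa_le_pk hr' m)
  have h3a : q3 ≤ qc a := (hq3.trans hq1).trans hqa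
  have h3b : q3 ≤ qc b := (hq3.trans hq1).trans hqb'
  constructor
  · refine mem_fimp.2 fun q4 hq4 h4 => ?_
    refine transfer (A := S.A) hka hkb (S.inj _ _) (S.inj _ _)
      (fun i hi => S.root _ _ _ _ i hi) (S.read a.1 m j) (S.iso a.1 m b.1 m j) ?_
      (hq4.trans h3a) (hq4.trans h3b) h4
    intro i n hi hn
    exact ⟨S.qc_dec _ _ _ (x := S.e (S.g a.1 m) i) ⟨hi, rfl⟩ hjm hn, hsame i n⟩
  · refine mem_fimp.2 fun q4 hq4 h4 => ?_
    refine transfer (A := S.A) hkb hka (S.inj _ _) (S.inj _ _)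
      (fun i hi => S.root _ _ _ _ i hi) (S.read b.1 m j) (S.iso b.1 m a.1 m j) ?_
      (hq4.trans h3b) (hq4.trans h3a) h4
    intro i n hi hn
    exact ⟨S.qc_dec _ _ _ (x := S.e (S.g b.1 m) i) ⟨hi, rfl⟩ hjm' hn, (hsame i n).symm⟩

/-- The freezing principle holds in the extension. -/
theorem freezeN (hK : ¬ #K ≤ 𝔠)
    (hK2 : ∀ T : Set K, ¬ #T ≤ 𝔠 → ∃ g : K × ℕ → K, Function.Injective g ∧ ∀ x, g x ∈ T)
    (p : Cnd K) : p ∈ FreezeN (Cnd K) K := by
  classical
  have : Infinite K := by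
    rw [← not_finite_iff_infinite]
    intro h
    exact hK (cnt_card)
  intro C
  refine mem_fex.2 fun q _ => ?_
  choose pk e F h1 h2 h3 _ h5 using fun k : K => reading q (C k)
  let d : K → (ℕ → ℕ → Option Bool) × (ℕ → Finset (ℕ × ℕ)) × (ℕ → Finset (ℕ × ℕ) → Bool) :=
    fun k => ((fun i n => (pk k).f (e k i) n), F k,
      fun n T => decide (fill (pk k) (im (e k) (F k n)) (im (e k) T) ∈ meets (C k n)))
  have hd : #((ℕ → ℕ → Option Bool) × (ℕ → Finset (ℕ × ℕ)) × (ℕ → Finset (ℕ × ℕ) → Bool)) ≤ 𝔠 :=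
    prod_card (fun_card (fun_card cnt_card)) (prod_card (fun_card cnt_card)
      (fun_card (fun_card cnt_card)))
  obtain ⟨T, A, hT1, hT2, hT3, hT4⟩ := thin hK hd e h2 d
  obtain ⟨g, hg1, hg2⟩ := hK2 T hT1
  obtain ⟨k0, hk0, _⟩ := exists_two hT1
  have d1 : ∀ k ∈ T, ∀ i n, (pk k).f (e k i) n = (pk k0).f (e k0 i) n := fun k hk i n =>
    congrFun (congrFun (congrArg Prod.fst (hT2 k hk k0 hk0)) i) n
  have d2 : ∀ k ∈ T, F k = F k0 := fun k hk => congrArg (fun z => z.2.1) (hT2 k hk k0 hk0)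
  have d3 : ∀ k ∈ T, ∀ n T', (fill (pk k) (im (e k) (F k n)) (im (e k) T') ∈ meets (C k n) ↔
      fill (pk k0) (im (e k0) (F k0 n)) (im (e k0) T') ∈ meets (C k0 n)) := fun k hk n T' =>
    decide_eq_decide.1 (congrFun (congrFun (congrArg (fun z => z.2.2) (hT2 k hk k0 hk0)) n) T')
  let S : Setup K :=
    { p := q
      C := C
      pk := pk
      e := e
      F := F k0
      P := fun i n => (pk k0).f (e k0 i) n
      A := A
      g := fun a m => g (a, m)
      le := fun a m => h1 _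
      inj := fun a m => h2 _
      sup := fun a m => h3 _
      read := fun a m n T' hT' => by
        have h6 := d2 _ (hg2 (a, m))
        rw [← h6] at hT' ⊢
        exact h5 _ n T' hT'
      iso := fun a m a' m' n T' hT' hm => by
        have h6 := d2 _ (hg2 (a, m))
        have h7 := d2 _ (hg2 (a', m'))
        have h8 := d3 _ (hg2 (a, m)) n T'
        have h9 := d3 _ (hg2 (a', m')) n T'
        rw [h6] at h8
        rw [h7] at h9
        exact h9.2 (h8.1 hm)
      val := fun a m => d1 _ (hg2 _)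
      root := fun a m a' m' i hi => hT3 _ (hg2 _) _ (hg2 _) i hi
      disj := fun a m a' m' hne i j hij => hT4 _ (hg2 _) _ (hg2 _) hne i j hij
      ginj := fun a m a' m' hh => by
        have h6 := hg1 hh
        rw [Prod.mk.injEq] at h6
        exact h6 }
  exact ⟨S.r k0, S.r_le k0, chk S.g, S.forced hK k0⟩

/-- `K` injects into the power set of `ℕ` in the extension. -/
theorem injectsN (p : Cnd K) : p ∈ InjectsN (Cnd K) K := by
  classical
  refine mem_fex.2 fun q _ => ⟨q, le_rfl, fun k n => {p | p.f k n = some true}, ?_⟩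
  intro k l hkl
  refine mem_fex.2 fun q1 _ => ?_
  obtain ⟨n, _, hn⟩ := q1.fr k 0
  let q2 := fill q1 {(l, n)} ∅
  have hq2 : q2 ≤ q1 := fill_le _ _ _
  have h1 : q2.f l n ≠ none := fill_ne_none _ _ (by simp)
  have h2 : q2.f k n = none := by
    show (fill q1 {(l, n)} ∅).f k n = none
    rw [fill_f, if_neg, hn]
    rintro ⟨h, _⟩
    rw [Finset.mem_singleton, Prod.mk.injEq] at h
    exact hkl h.1
  obtain ⟨b, hb⟩ := Option.ne_none_iff_exists'.1 h1
  let q3 := change q2 {(k, n)} fun _ _ => some (!b)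
  have hq3 : q3 ≤ q2 := by
    intro x i c hc
    show (change q2 {(k, n)} fun _ _ => some (!b)).f x i = some c
    rw [change_f, if_neg, hc]
    intro h
    rw [Finset.mem_singleton, Prod.mk.injEq] at h
    obtain ⟨rfl, rfl⟩ := h
    rw [h2] at hc
    exact absurd hc (by simp)
  have h3 : q3.f k n = some (!b) := by
    show (change q2 {(k, n)} fun _ _ => some (!b)).f k n = _
    rw [change_f, if_pos (by simp)]
  have h4 : q3.f l n = some b := hq3 l n b hb
  have key : ∀ (x y : K), q3.f x n = some true → q3.f y n = some false → ∀ q4 ≤ q3,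
      q4 ∈ fimp (meets {p : Cnd K | p.f x n = some true}) (meets {p | p.f y n = some true}) →
      False := by
    intro x y hx hy q4 hq4 hf
    obtain ⟨q5, hq5, hm⟩ := mem_fimp.1 hf q4 le_rfl (meets_of_mem (hq4 x n true hx))
    obtain ⟨r, hr, s, hs, hrs⟩ := hm q5 le_rfl
    have h6 : r.f y n = some true := hrs y n true hs
    have h7 : r.f y n = some false := hr y n false (hq5 y n false (hq4 y n false hy))
    rw [h6] at h7
    exact absurd h7 (by simp)
  refine ⟨q3, hq3.trans hq2, n, fun q4 hq4 hf => ?_⟩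
  cases b with
  | true => exact key l k h4 h3 q4 hq4 hf.2
  | false => exact key k l h3 h4 q4 hq4 hf.1

/-- There is a set `K` of size greater than the continuum for which the forcing works. -/
theorem exists_K : ∃ K : Type, ∀ p : Cnd K, p ∈ InjectsN (Cnd K) K ∧ p ∈ FreezeN (Cnd K) K := by
  classical
  let K : Type := (Order.succ 𝔠 : Cardinal.{0}).ord.ToType
  have hK : #K = Order.succ 𝔠 := Cardinal.mk_ord_toType _
  refine ⟨K, fun p => ⟨injectsN p, freezeN ?_ ?_ p⟩⟩
  · rw [hK]
    exact not_le.2 (Order.lt_succ _)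
  · intro T hT
    have h1 : Order.succ 𝔠 ≤ #T := Order.succ_le_of_lt (not_le.1 hT)
    have h2 : #(K × ℕ) ≤ #T := by
      rw [Cardinal.mk_prod, Cardinal.lift_id, Cardinal.lift_id, hK, Cardinal.mk_nat]
      rw [Cardinal.mul_aleph0_eq (aleph0_le_continuum.trans (Order.le_succ _))]
      exact h1
    obtain ⟨f⟩ := h2
    exact ⟨fun x => (f x : K), fun x y hxy => f.injective (Subtype.ext hxy), fun x => (f x).2⟩

end Pool.Agent.TH787.Sil
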