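import Pool.Agent.TH787.Sil.Cnd

set_option autoImplicit false

/-! Continuous reading of names, bounding of named functions, and the transfer between isomorphic
names. -/

namespace Pool.Agent.TH787.Sil

open Pool.Agent.Helper669.Forcing Cardinal

variable {K : Type}

open Classical in
/-- transport of a finite set of places -/
noncomputable def im (e : ℕ → K) (T : Finset (ℕ × ℕ)) : Finset (K × ℕ) :=
  T.image fun a => (e a.1, a.2)

theorem mem_im {e : ℕ → K} {T : Finset (ℕ × ℕ)} {k : K} {n : ℕ} :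
    (k, n) ∈ im e T ↔ ∃ i, (i, n) ∈ T ∧ e i = k := by
  classical
  unfold im
  rw [Finset.mem_image]
  constructor
  · rintro ⟨⟨i, n'⟩, h1, h2⟩
    rw [Prod.mk.injEq] at h2
    obtain ⟨h3, h4⟩ := h2
    simp only at h3 h4
    subst h4
    exact ⟨i, h1, h3⟩
  · rintro ⟨i, h1, h2⟩
    exact ⟨(i, n), h1, by rw [← h2]⟩

theorem mem_im' {e : ℕ → K} (he : Function.Injective e) {T : Finset (ℕ × ℕ)} {i n : ℕ} :
    (e i, n) ∈ im e T ↔ (i, n) ∈ T := by
  rw [mem_im]
  constructor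
  · rintro ⟨j, h1, h2⟩
    rw [← he h2]; exact h1
  · exact fun h => ⟨i, h, rfl⟩

theorem exists_im {e : ℕ → K} (F : Finset (K × ℕ)) (h : ∀ k n, (k, n) ∈ F → ∃ i, e i = k) :
    ∃ F', im e F' = F := by
  classical
  choose g hg using h
  refine ⟨F.attach.image (fun a => (g a.1.1 a.1.2 a.2, a.1.2)), ?_⟩
  ext ⟨k, n⟩
  rw [mem_im]
  constructor
  · rintro ⟨i, h1, h2⟩
    obtain ⟨⟨⟨k', n'⟩, h3⟩, _, h4⟩ := Finset.mem_image.1 h1
    rw [Prod.mk.injEq] at h4
    obtain ⟨h5, h6⟩ := h4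
    simp only at h5 h6
    subst h6
    rw [← h5, hg] at h2
    rw [← h2]; exact h3
  · intro h
    exact ⟨g k n h, Finset.mem_image.2 ⟨⟨(k, n), h⟩, Finset.mem_attach _ _, rfl⟩, hg k n h⟩

theorem exists_enum [Infinite K] {S : Set K} (hS : S.Countable) :
    ∃ e : ℕ → K, Function.Injective e ∧ ∀ k ∈ S, ∃ i, e i = k := by
  classical
  let S' : Set K := S ∪ Set.range (Infinite.natEmbedding K)
  have h1 : S'.Countable := hS.union (Set.countable_range _)
  have h2 : S'.Infinite := (Set.infinite_range_of_injective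
    (Infinite.natEmbedding K).injective).mono Set.subset_union_right
  have : Countable S' := h1.to_subtype
  have : Infinite S' := h2.to_subtype
  obtain ⟨d⟩ := nonempty_denumerable S'
  let eq : S' ≃ ℕ := Denumerable.eqv S'
  refine ⟨fun i => (eq.symm i : K), fun i j h => eq.symm.injective (Subtype.ext h), ?_⟩
  intro k hk
  exact ⟨eq ⟨k, Or.inl hk⟩, by simp⟩

theorem dense_decide (N : Set (Cnd K)) (p : Cnd K) :
    DenseBelow {q | q ∈ meets N ∨ q ∈ fnot (meets N)} p := by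
  intro q _
  by_cases h : ∃ r ≤ q, r ∈ meets N
  · obtain ⟨r, hr, h1⟩ := h
    exact ⟨r, hr, Or.inl h1⟩
  · push Not at h
    exact ⟨q, le_rfl, Or.inr h⟩

theorem down_decide (N : Set (Cnd K)) : Down {q : Cnd K | q ∈ meets N ∨ q ∈ fnot (meets N)} := by
  rintro p (hp | hp) q hq
  · exact Or.inl (down_meets _ _ hp _ hq)
  · exact Or.inr (down_fnot _ _ hp _ hq)

/-- continuous reading of a named subset of `ℕ` -/
theorem reading [Infinite K] (p : Cnd K) (C : ℕ → Set (Cnd K)) :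
    ∃ (q : Cnd K) (e : ℕ → K) (F : ℕ → Finset (ℕ × ℕ)), q ≤ p ∧ Function.Injective e ∧
      (∀ x n, q.f x n ≠ none → ∃ i, e i = x) ∧ (∀ n, Free q (im e (F n))) ∧
      ∀ n, ∀ T ⊆ F n, fill q (im e (F n)) (im e T) ∈ meets (C n) ∨
        fill q (im e (F n)) (im e T) ∈ fnot (meets (C n)) := by
  classical
  obtain ⟨q, hq, F, h1, h2⟩ := fusion (p0 := p) (fun n => {q | q ∈ meets (C n) ∨
    q ∈ fnot (meets (C n))}) (fun n => dense_decide _ _) (fun n => down_decide _)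
  obtain ⟨e, he, h3⟩ := exists_enum (K := K) (S := {x | ∃ n, q.f x n ≠ none} ∪
    ⋃ n, ((F n).image Prod.fst : Finset K)) (q.cs.union (Set.countable_iUnion fun n =>
      Finset.countable_toSet _))
  have h4 : ∀ n, ∃ F', im e F' = F n := by
    intro n
    refine exists_im _ fun k m hk => h3 k (Or.inr (Set.mem_iUnion.2 ⟨n, ?_⟩))
    simp only [Finset.coe_image, Set.mem_image, Finset.mem_coe, Prod.exists, exists_and_right,
      exists_eq_right]
    exact ⟨m, hk⟩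
  choose F' hF' using h4
  refine ⟨q, e, F', hq, he, fun x n h => h3 x (Or.inl ⟨n, h⟩), fun n => ?_, fun n T hT => ?_⟩
  · rw [hF']; exact h1 n
  · rw [hF']
    refine h2 n _ ?_
    rw [← hF']
    rintro ⟨k, m⟩ hk
    rw [mem_im] at hk ⊢
    obtain ⟨i, h5, h6⟩ := hk
    exact ⟨i, hT h5, h6⟩

/-- named functions from `ℕ` to `ℕ` are bounded -/
theorem bounding {q r : Cnd K} (hq : q ≤ r) (w : ℕ → ℕ → Set (Cnd K)) (hw : r ∈ IsFun w) :
    ∃ q' ≤ q, ∃ h : ℕ → ℕ, ∀ n v, ∀ q1 ≤ q', q1 ∈ meets (w n v) → v ≤ h n := by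
  classical
  obtain ⟨q', hq', F, h1, h2⟩ := fusion (p0 := q) (fun n => {q | ∃ v, q ∈ meets (w n v)})
    (fun n q1 hq1 => IsFun.total (down_IsFun _ _ hw _ (hq1.trans hq)) n)
    (fun n p hp q hq => by
      obtain ⟨v, hv⟩ := hp
      exact ⟨v, down_meets _ _ hv _ hq⟩)
  choose v hv using h2
  let v' : ℕ → Finset (K × ℕ) → ℕ := fun n T => if h : T ⊆ F n then v n T h else 0
  refine ⟨q', hq', fun n => (F n).powerset.sup (v' n), ?_⟩
  intro n u q1 hq1 hu
  let q2 := fill q1 (F n) ∅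
  have hq2 : q2 ≤ q1 := fill_le _ _ _
  let T : Finset (K × ℕ) := (F n).filter fun a => q2.f a.1 a.2 = some true
  have hT : T ⊆ F n := Finset.filter_subset _ _
  have h3 : q2 ≤ fill q' (F n) T := by
    refine le_fill (hq2.trans hq1) fun k m hk => ⟨fill_ne_none _ _ hk, ?_⟩
    simp only [T, Finset.mem_filter]
    exact ⟨fun h => h.2, fun h => ⟨hk, h⟩⟩
  have h4 : q2 ∈ meets (w n (v n T hT)) := down_meets _ _ (hv n T hT) _ h3
  have h5 : q2 ∈ meets (w n u) := down_meets _ _ hu _ hq2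
  have h6 : q2 ∈ IsFun w := down_IsFun _ _ hw _ (((hq2.trans hq1).trans hq').trans hq)
  have h7 := IsFun.unique h6 h5 h4
  rw [h7]
  have h8 : v n T hT = v' n T := by
    show _ = (if h : T ⊆ F n then v n T h else 0)
    rw [dif_pos hT]
  rw [h8]
  exact Finset.le_sup (f := v' n) (Finset.mem_powerset.2 hT)

/-- the transfer between isomorphic names -/
theorem transfer {pk pl qk ql : Cnd K} {ek el : ℕ → K} {A : Set ℕ} {F0 : Finset (ℕ × ℕ)}
    {Ck Cl : Set (Cnd K)} (hk : qk ≤ pk) (hl : ql ≤ pl) (hek : Function.Injective ek)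
    (hel : Function.Injective el) (hA : ∀ i ∈ A, ek i = el i)
    (hread : ∀ T ⊆ F0, fill pk (im ek F0) (im ek T) ∈ meets Ck ∨
      fill pk (im ek F0) (im ek T) ∈ fnot (meets Ck))
    (hiso : ∀ T ⊆ F0, fill pk (im ek F0) (im ek T) ∈ meets Ck →
      fill pl (im el F0) (im el T) ∈ meets Cl)
    (hdec : ∀ i n, i ∉ A → (i, n) ∈ F0 → qk.f (ek i) n ≠ none ∧ qk.f (ek i) n = ql.f (el i) n)
    {q1 : Cnd K} (h1 : q1 ≤ qk) (h2 : q1 ≤ ql) (h3 : q1 ∈ meets Ck) :
    ∃ q2 ≤ q1, q2 ∈ meets Cl := by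
  classical
  let q2 := fill (fill q1 (im ek F0) ∅) (im el F0) ∅
  have hq2 : q2 ≤ q1 := (fill_le _ _ _).trans (fill_le _ _ _)
  have hq2k : q2 ≤ fill q1 (im ek F0) ∅ := fill_le _ _ _
  refine ⟨q2, hq2, ?_⟩
  have hdk : ∀ k n, (k, n) ∈ im ek F0 → q2.f k n ≠ none := by
    intro k n h
    have h4 := fill_ne_none q1 ∅ h
    rw [ne_none_of_le hq2k h4]
    exact h4
  have hdl : ∀ k n, (k, n) ∈ im el F0 → q2.f k n ≠ none := fun k n h => fill_ne_none _ ∅ h
  let T : Finset (ℕ × ℕ) := F0.filter fun a => q2.f (ek a.1) a.2 = some true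
  have hT : T ⊆ F0 := Finset.filter_subset _ _
  have hsame : ∀ i n, (i, n) ∈ F0 → q2.f (ek i) n = q2.f (el i) n := by
    intro i n h
    by_cases hi : i ∈ A
    · rw [hA i hi]
    · obtain ⟨h4, h5⟩ := hdec i n hi h
      rw [ne_none_of_le (hq2.trans h1) h4, h5]
      rw [h5] at h4
      exact (ne_none_of_le (hq2.trans h2) h4).symm
  have h4 : q2 ≤ fill pk (im ek F0) (im ek T) := by
    refine le_fill ((hq2.trans h1).trans hk) fun k n h => ⟨hdk k n h, ?_⟩
    obtain ⟨i, h5, rfl⟩ := mem_im.1 h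
    rw [mem_im' hek]
    simp only [T, Finset.mem_filter]
    exact ⟨fun h => h.2, fun h => ⟨h5, h⟩⟩
  have h5 : q2 ≤ fill pl (im el F0) (im el T) := by
    refine le_fill ((hq2.trans h2).trans hl) fun k n h => ⟨hdl k n h, ?_⟩
    obtain ⟨i, h5, rfl⟩ := mem_im.1 h
    rw [mem_im' hel, ← hsame i n h5]
    simp only [T, Finset.mem_filter]
    exact ⟨fun h => h.2, fun h => ⟨h5, h⟩⟩
  have h6 : q2 ∈ meets Ck := down_meets _ _ h3 _ hq2
  rcases hread T hT with h7 | h7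
  · exact down_meets _ _ (hiso T hT h7) _ h5
  · exact absurd h6 (h7 q2 h4)

end Pool.Agent.TH787.Sil
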